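import Mathlib
import Pool.Prelude.Def_F_c31e40fa
import Pool.Agent.Y811.BD.Bdy

set_option autoImplicit false

/-!
# MP_be825a_an: the boundary of the Mandelbrot set near the parabolic parameters

On the boundary no cycle is attracting, so by the fixed point formula the multiplier of every cycle is outside
of explicit horodiscs; near a parabolic parameter this confines the boundary to a thin neighbourhood of a line.
Parts by helpers 109, 151 and 811 (projects PA and PC; see ParabolicDensity under MP_af9036_an).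
-/

open MeasureTheory Metric Set N62a1eb23

namespace Pool.Agent.Results.MP_be825a_an.ParabolicTangents

/-- The `m`-th iterate of `z ^ d + c`. -/
def iter (d m : ℕ) (c z : ℂ) : ℂ := (fun z : ℂ => z ^ d + c)^[m] z

/-- The derivative of the `m`-th iterate of `z ^ d + c`: the multiplier, at a point of period `m`. -/
noncomputable def mult (d m : ℕ) (c z : ℂ) : ℂ := deriv (iter d m c) z

/-- `z₀` is a point of exact period `m` of `z ^ d + c₀` and its multiplier is a primitive `q`-th root of
unity: `c₀` is a parabolic parameter. -/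
def IsParabolicPoint (d m q : ℕ) (c₀ z₀ : ℂ) : Prop :=
  1 ≤ m ∧ 1 ≤ q ∧ iter d m c₀ z₀ = z₀ ∧ (∀ j, 0 < j → j < m → iter d j c₀ z₀ ≠ z₀) ∧
    IsPrimitiveRoot (mult d m c₀ z₀) q

/-- The boundary of the Mandelbrot set near a parabolic parameter `c₀` (`e = 3 / 2` if the multiplier is `1`,
`e = 2` otherwise): its points are within `C |c - c₀| ^ e` of a line through `c₀`, and its part in the disc of
radius `r` has area at most `C r ^ (1 + e)`. -/
theorem result (m q : ℕ) (c₀ z₀ : ℂ) (h : IsParabolicPoint 2 m q c₀ z₀) (e : ℝ)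
    (he : e = if mult 2 m c₀ z₀ = 1 then 3 / 2 else 2) :
    ∃ (κ : ℂ) (C r₀ : ℝ), κ ≠ 0 ∧ 0 < C ∧ 0 < r₀ ∧
      (∀ c ∈ frontier mandelbrotSet, ‖c - c₀‖ < r₀ → |(κ * (c - c₀)).re| ≤ C * ‖c - c₀‖ ^ e) ∧
      ∀ r : ℝ, 0 < r → r < r₀ →
        volume (ball c₀ r ∩ frontier mandelbrotSet) ≤ ENNReal.ofReal (C * r ^ (1 + e)) := by
  obtain ⟨h1, h2, h3, h4, h5⟩ := h
  exact Pool.Agent.Y811.BD.bdy_dens ⟨le_rfl, h1, h2, h3, h4, h5⟩ he

end Pool.Agent.Results.MP_be825a_an.ParabolicTangents
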